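import Pool.Agent.Q171.Lem.Shell

set_option autoImplicit false

open Metric Set Filter Topology

/-!
# A smooth bounded non-pseudoconvex domain with continuous Lempert function

For every `n ≥ 2` the spherical shell `{1 < |x| < 2}` of `ℂ^n` is a bounded domain with
real-analytic boundary whose Lempert function is continuous, but it is not pseudoconvex.
-/

namespace Pool.Agent.Results.MP_5a1ff8_an.LempertShell

/-- `ℂ^n` with its Euclidean norm -/
abbrev Cn (n : ℕ) : Type := EuclideanSpace ℂ (Fin n)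

/-- the Lempert function of `D` -/
noncomputable def lempert {n : ℕ} (D : Set (Cn n)) (z w : Cn n) : ℝ :=
  sInf {r | ∃ (f : ℂ → Cn n) (l : ℂ), DifferentiableOn ℂ f (ball 0 1) ∧
    MapsTo f (ball 0 1) D ∧ ‖l‖ < 1 ∧ f 0 = z ∧ f l = w ∧ r = Real.artanh ‖l‖}

/-- near every boundary point `p` the set `D` is `{ρ < 0}` with `ρ` real-analytic and
`dρ ≠ 0` -/
def AnalyticBoundary {n : ℕ} (D : Set (Cn n)) : Prop :=
  ∀ p ∈ frontier D, ∃ (U : Set (Cn n)) (ρ : Cn n → ℝ), IsOpen U ∧ p ∈ U ∧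
    ContDiffOn ℝ ⊤ ρ U ∧ (∀ x ∈ U, fderiv ℝ ρ x ≠ 0) ∧ D ∩ U = {x ∈ U | ρ x < 0}

/-- `D` is pseudoconvex: it has a continuous plurisubharmonic exhaustion function `u`, that is
`u` satisfies the sub-mean value inequality on the closed affine discs contained in `D`, and its
sublevel sets in `D` are compact. -/
def Pseudoconvex {n : ℕ} (D : Set (Cn n)) : Prop :=
  ∃ u : Cn n → ℝ, ContinuousOn u D ∧
    (∀ a b : Cn n, (∀ ζ : ℂ, ‖ζ‖ ≤ 1 → a + ζ • b ∈ D) →
      u a ≤ (1 / (2 * Real.pi)) *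
        ∫ θ in (0 : ℝ)..(2 * Real.pi), u (a + Complex.exp (θ * Complex.I) • b)) ∧
    ∀ c : ℝ, IsCompact {x ∈ D | u x ≤ c}

open Pool.Agent.Q171.Lem

theorem lempert_eq {n : ℕ} (D : Set (Cn n)) (z w : Cn n) :
    lempert D z w = sInf (LSet D z w) := rfl

theorem shell_connected {n : ℕ} (hn : 2 ≤ n) : IsConnected (Shell (Cn n)) := by
  have hrank : 1 < Module.rank ℝ (Cn n) := by
    have h1 : Module.finrank ℝ (Cn n) = 2 * n := by
      rw [finrank_real_of_complex]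
      simp
    have h2 : Module.rank ℝ (Cn n) = ((2 * n : ℕ) : Cardinal) := by
      rw [← h1, Module.finrank_eq_rank]
    rw [h2]
    have : 1 < 2 * n := by omega
    exact_mod_cast this
  have hS : IsConnected (sphere (0 : Cn n) 1) := isConnected_sphere hrank 0 zero_le_one
  have hI : IsConnected (Ioo (1 : ℝ) 2) := isConnected_Ioo (by norm_num)
  have himg : Shell (Cn n) = (fun p : ℝ × Cn n => p.1 • p.2) '' (Ioo (1 : ℝ) 2 ×ˢ sphere 0 1) := by
    ext x
    constructor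
    · rintro ⟨h1, h2⟩
      have hx : ‖x‖ ≠ 0 := by linarith
      refine ⟨(‖x‖, ‖x‖⁻¹ • x), ⟨⟨h1, h2⟩, ?_⟩, ?_⟩
      · rw [mem_sphere_zero_iff_norm, norm_smul, norm_inv, norm_norm, inv_mul_cancel₀ hx]
      · simp only [smul_smul, mul_inv_cancel₀ hx, one_smul]
    · rintro ⟨⟨t, y⟩, ⟨⟨h1, h2⟩, hy⟩, rfl⟩
      rw [mem_sphere_zero_iff_norm] at hy
      simp only at h1 h2 hy ⊢
      show 1 < ‖t • y‖ ∧ ‖t • y‖ < 2
      rw [norm_smul, hy, mul_one, Real.norm_of_nonneg (by linarith)]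
      exact ⟨h1, h2⟩
  rw [himg]
  exact (hI.prod hS).image _ (by fun_prop)

theorem ray_deriv {n : ℕ} {ρ : Cn n → ℝ} {x : Cn n} (hd : DifferentiableAt ℝ ρ x)
    {s : ℝ} (hs : s ≠ 0) {k : ℝ} (h : ∀ t : ℝ, ρ (t • x) = s * (t ^ 2 * ‖x‖ ^ 2) + k)
    (hx : x ≠ 0) : fderiv ℝ ρ x ≠ 0 := by
  intro h0
  have h1 : HasDerivAt (fun t : ℝ => ρ (t • x)) (fderiv ℝ ρ x x) 1 := by
    have h2 : HasDerivAt (fun t : ℝ => t • x) x 1 := by
      simpa using (hasDerivAt_id (1 : ℝ)).smul_const x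
    have h3 : HasFDerivAt ρ (fderiv ℝ ρ x) ((1 : ℝ) • x) := by
      rw [one_smul]; exact hd.hasFDerivAt
    exact h3.comp_hasDerivAt 1 h2
  have h4 : HasDerivAt (fun t : ℝ => ρ (t • x)) (s * (2 * ‖x‖ ^ 2)) 1 := by
    have : (fun t : ℝ => ρ (t • x)) = fun t : ℝ => s * (t ^ 2 * ‖x‖ ^ 2) + k := funext h
    rw [this]
    have h5 := (((hasDerivAt_pow 2 (1 : ℝ)).mul_const (‖x‖ ^ 2)).const_mul s).add_const k
    simpa using h5
  have h6 := h1.unique h4
  rw [h0] at h6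
  simp only [zero_apply] at h6
  have : 0 < ‖x‖ ^ 2 := by positivity
  have h7 : s * (2 * ‖x‖ ^ 2) ≠ 0 := mul_ne_zero hs (by positivity)
  exact h7 h6.symm

theorem shell_boundary {n : ℕ} : AnalyticBoundary (Shell (Cn n)) := by
  intro p hp
  have hcl : p ∈ closure (Shell (Cn n)) := hp.1
  have hnot : p ∉ Shell (Cn n) := by
    have := hp.2
    rwa [isOpen_shell.interior_eq] at this
  have hcb : 1 ≤ ‖p‖ ∧ ‖p‖ ≤ 2 := by
    have hclosed : IsClosed {x : Cn n | 1 ≤ ‖x‖ ∧ ‖x‖ ≤ 2} :=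
      (isClosed_le continuous_const continuous_norm).inter
        (isClosed_le continuous_norm continuous_const)
    have hsub : Shell (Cn n) ⊆ {x : Cn n | 1 ≤ ‖x‖ ∧ ‖x‖ ≤ 2} := fun x hx => ⟨hx.1.le, hx.2.le⟩
    exact closure_minimal hsub hclosed hcl
  have hor : ‖p‖ = 1 ∨ ‖p‖ = 2 := by
    by_contra hcon
    push Not at hcon
    exact hnot ⟨lt_of_le_of_ne hcb.1 (Ne.symm hcon.1), lt_of_le_of_ne hcb.2 hcon.2⟩
  have hsm : ContDiff ℝ ⊤ (fun x : Cn n => ‖x‖ ^ 2) := contDiff_norm_sq ℂ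
  rcases hor with h | h
  · have hρ : ContDiff ℝ ⊤ (fun x : Cn n => 1 - ‖x‖ ^ 2) := contDiff_const.sub hsm
    refine ⟨{x | 0 < ‖x‖ ∧ ‖x‖ < 2}, fun x => 1 - ‖x‖ ^ 2,
      (isOpen_lt continuous_const continuous_norm).inter
        (isOpen_lt continuous_norm continuous_const), ?_, hρ.contDiffOn, ?_, ?_⟩
    · constructor <;> rw [h] <;> norm_num
    · intro x hx
      refine ray_deriv (s := -1) (k := 1) ((hρ.differentiable (by simp)) x) (by norm_num) ?_
        (norm_pos_iff.mp hx.1)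
      intro t
      rw [norm_smul, mul_pow, Real.norm_eq_abs, sq_abs]; ring
    · ext x
      constructor
      · rintro ⟨h1, h2⟩
        refine ⟨h2, ?_⟩
        have := h1.1
        nlinarith
      · rintro ⟨h1, h2⟩
        refine ⟨⟨?_, h1.2⟩, h1⟩
        have h2' : 1 - ‖x‖ ^ 2 < 0 := h2
        have := h1.1
        by_contra hcon
        push Not at hcon
        nlinarith
  · have hρ : ContDiff ℝ ⊤ (fun x : Cn n => ‖x‖ ^ 2 - 4) := hsm.sub contDiff_const
    refine ⟨{x | 1 < ‖x‖}, fun x => ‖x‖ ^ 2 - 4,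
      isOpen_lt continuous_const continuous_norm, ?_, hρ.contDiffOn, ?_, ?_⟩
    · show 1 < ‖p‖
      rw [h]; norm_num
    · intro x hx
      have hx' : 1 < ‖x‖ := hx
      refine ray_deriv (s := 1) (k := -4) ((hρ.differentiable (by simp)) x) (by norm_num) ?_
        (norm_pos_iff.mp (by linarith))
      intro t
      rw [norm_smul, mul_pow, Real.norm_eq_abs, sq_abs]; ring
    · ext x
      constructor
      · rintro ⟨h1, h2⟩
        refine ⟨h2, ?_⟩
        have := h1.2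
        have := h1.1
        show ‖x‖ ^ 2 - 4 < 0
        nlinarith
      · rintro ⟨h1, h2⟩
        have h1' : 1 < ‖x‖ := h1
        have h2' : ‖x‖ ^ 2 - 4 < 0 := h2
        refine ⟨⟨h1', ?_⟩, h1⟩
        by_contra hcon
        push Not at hcon
        nlinarith

theorem shell_not_pseudoconvex {n : ℕ} (hn : 2 ≤ n) : ¬ Pseudoconvex (Shell (Cn n)) := by
  rintro ⟨u, huc, hsub, hcomp⟩
  set e1 : Cn n := EuclideanSpace.single ⟨0, by omega⟩ 1 with he1
  set e2 : Cn n := EuclideanSpace.single ⟨1, by omega⟩ 1 with he2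
  have hnorm : ∀ (t : ℝ) (ζ : ℂ), ‖(t : ℂ) • e1 + ζ • e2‖ ^ 2 = t ^ 2 + ‖ζ‖ ^ 2 := by
    intro t ζ
    have horth : inner ℂ ((t : ℂ) • e1) (ζ • e2) = 0 := by
      rw [inner_smul_left, inner_smul_right, he1, he2, EuclideanSpace.inner_single_left]
      simp
    have h1 := norm_add_sq_eq_norm_sq_add_norm_sq_of_inner_eq_zero _ _ horth
    rw [pow_two, h1, norm_smul, norm_smul, he1, he2]
    simp
    ring
  have hmem : ∀ (t : ℝ) (ζ : ℂ), 1 < t ^ 2 + ‖ζ‖ ^ 2 → t ^ 2 + ‖ζ‖ ^ 2 < 4 →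
      (t : ℂ) • e1 + ζ • e2 ∈ Shell (Cn n) := by
    intro t ζ h1 h2
    rw [← hnorm] at h1 h2
    have h0 := norm_nonneg ((t : ℂ) • e1 + ζ • e2)
    constructor
    · by_contra hcon; push Not at hcon; nlinarith
    · by_contra hcon; push Not at hcon; nlinarith
  set K : Set (Cn n) := (fun p : ℝ × ℂ => (p.1 : ℂ) • e1 + p.2 • e2) ''
    (Icc (1 : ℝ) (3 / 2) ×ˢ sphere (0 : ℂ) 1) with hK
  have hKc : IsCompact K := (isCompact_Icc.prod (isCompact_sphere 0 1)).image (by fun_prop)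
  have hKD : K ⊆ Shell (Cn n) := by
    rintro _ ⟨⟨t, ζ⟩, ⟨⟨h1, h2⟩, h3⟩, rfl⟩
    rw [mem_sphere_zero_iff_norm] at h3
    simp only at h1 h2 h3 ⊢
    apply hmem <;> rw [h3] <;> nlinarith
  obtain ⟨C, hC⟩ := hKc.exists_bound_of_continuousOn (huc.mono hKD)
  have hle : ∀ t : ℝ, 1 < t → t ≤ 3 / 2 → u ((t : ℂ) • e1) ≤ C := by
    intro t ht1 ht2
    have h1 := hsub ((t : ℂ) • e1) e2 (fun ζ hζ => by
      apply hmem
      · nlinarith [norm_nonneg ζ]
      · nlinarith [norm_nonneg ζ])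
    refine h1.trans ?_
    have hin : ∀ θ : ℝ, (t : ℂ) • e1 + Complex.exp (θ * Complex.I) • e2 ∈ K := fun θ =>
      ⟨(t, Complex.exp (θ * Complex.I)), ⟨⟨ht1.le, ht2⟩, by
        rw [mem_sphere_zero_iff_norm]; exact Complex.norm_exp_ofReal_mul_I θ⟩, rfl⟩
    have hcont : Continuous (fun θ : ℝ => u ((t : ℂ) • e1 + Complex.exp (θ * Complex.I) • e2)) :=
      (huc.mono hKD).comp_continuous (by fun_prop) hin
    have h2 : ∫ θ in (0 : ℝ)..(2 * Real.pi), u ((t : ℂ) • e1 + Complex.exp (θ * Complex.I) • e2)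
        ≤ ∫ _ in (0 : ℝ)..(2 * Real.pi), C := by
      apply intervalIntegral.integral_mono_on (by positivity) (hcont.intervalIntegrable _ _)
        intervalIntegrable_const
      intro θ _
      exact (le_abs_self _).trans (hC _ (hin θ))
    rw [intervalIntegral.integral_const, smul_eq_mul, sub_zero] at h2
    have hpi := Real.pi_pos
    calc 1 / (2 * Real.pi) * ∫ θ in (0 : ℝ)..(2 * Real.pi),
          u ((t : ℂ) • e1 + Complex.exp (θ * Complex.I) • e2)
        ≤ 1 / (2 * Real.pi) * (2 * Real.pi * C) := by gcongr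
      _ = C := by field_simp
  have hcl := (hcomp C).isClosed
  have hlim : Tendsto (fun k : ℕ => ((1 + 1 / ((k : ℝ) + 2) : ℝ) : ℂ) • e1) atTop
      (𝓝 (((1 + 0 : ℝ) : ℂ) • e1)) := by
    apply Tendsto.smul_const
    apply (Complex.continuous_ofReal.tendsto _).comp
    apply Tendsto.const_add
    have := (tendsto_one_div_add_atTop_nhds_zero_nat (𝕜 := ℝ)).comp (tendsto_add_atTop_nat 1)
    refine this.congr fun k => ?_
    simp only [Function.comp]
    push_cast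
    ring_nf
  have hin : ∀ k : ℕ, ((1 + 1 / ((k : ℝ) + 2) : ℝ) : ℂ) • e1 ∈ {x ∈ Shell (Cn n) | u x ≤ C} := by
    intro k
    have h1 : 0 < 1 / ((k : ℝ) + 2) := by positivity
    have h2 : 1 / ((k : ℝ) + 2) ≤ 1 / 2 := by
      apply one_div_le_one_div_of_le (by norm_num)
      have : (0 : ℝ) ≤ k := Nat.cast_nonneg k
      linarith
    refine ⟨?_, hle _ (by linarith) (by linarith)⟩
    have := hmem (1 + 1 / ((k : ℝ) + 2)) 0 (by rw [norm_zero]; nlinarith)
      (by rw [norm_zero]; nlinarith)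
    simpa using this
  have h3 := hcl.mem_of_tendsto hlim (Eventually.of_forall hin)
  have h4 := h3.1.1
  have h5 := hnorm 1 0
  simp only [zero_smul, add_zero, norm_zero] at h5
  rw [add_zero] at h4
  nlinarith [norm_nonneg (((1 : ℝ) : ℂ) • e1)]

theorem lempert_continuous {n : ℕ} (hn : 2 ≤ n) :
    ContinuousOn (fun p : Cn n × Cn n => lempert (Shell (Cn n)) p.1 p.2)
      (Shell (Cn n) ×ˢ Shell (Cn n)) := by
  rintro ⟨z, w⟩ ⟨hz, hw⟩
  simp only at hz hw
  have hne : ∀ z w : Cn n, z ∈ Shell (Cn n) → w ∈ Shell (Cn n) →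
      (LSet (Shell (Cn n)) z w).Nonempty := fun z w hz hw =>
    LSet_nonempty isOpen_shell (shell_connected hn) hz hw
  have hopen : IsOpen (Shell (Cn n) ×ˢ Shell (Cn n)) := isOpen_shell.prod isOpen_shell
  unfold ContinuousWithinAt
  rw [tendsto_order]
  constructor
  · intro c hc
    by_contra hcon
    rw [not_eventually] at hcon
    obtain ⟨c1, hc1, hc1'⟩ := exists_between hc
    obtain ⟨c2, hc2, hc2'⟩ := exists_between hc1'
    have hfr : ∃ᶠ p : Cn n × Cn n in 𝓝[Shell (Cn n) ×ˢ Shell (Cn n)] (z, w),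
        ∃ r ∈ LSet (Shell (Cn n)) p.1 p.2, r < c1 := by
      have hev : ∀ᶠ p : Cn n × Cn n in 𝓝[Shell (Cn n) ×ˢ Shell (Cn n)] (z, w),
          p ∈ Shell (Cn n) ×ˢ Shell (Cn n) := self_mem_nhdsWithin
      refine (hcon.and_eventually hev).mono ?_
      rintro p ⟨hp1, hp2⟩
      have h1 : sInf (LSet (Shell (Cn n)) p.1 p.2) < c1 := (not_lt.mp hp1).trans_lt hc1
      exact (csInf_lt_iff (LSet_bdd _ _ _) (hne _ _ hp2.1 hp2.2)).mp h1
    obtain ⟨p, hp, hpr⟩ := exists_seq_forall_of_frequently hfr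
    obtain ⟨r, hr, hrc⟩ := shell_closed hz hw (hp.mono_right nhdsWithin_le_nhds) hpr hc2
    have h2 : lempert (Shell (Cn n)) z w ≤ r := csInf_le (LSet_bdd _ _ _) hr
    simp only at hc2'
    linarith
  · intro c hc
    have h1 := (csInf_lt_iff (LSet_bdd _ _ _) (hne _ _ hz hw)).mp hc
    have h2 := usc isOpen_shell h1
    filter_upwards [h2.filter_mono nhdsWithin_le_nhds, self_mem_nhdsWithin] with p hp hpD
    exact (csInf_lt_iff (LSet_bdd _ _ _) (hne _ _ hpD.1 hpD.2)).mpr hp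

/-- For every `n ≥ 2` the shell `D = {1 < |x| < 2}` in `ℂ^n` is a bounded domain with
real-analytic boundary, its Lempert function is continuous on `D × D`, and `D` is not
pseudoconvex. -/
theorem result (n : ℕ) (hn : 2 ≤ n) (D : Set (Cn n)) (hD : D = {x | 1 < ‖x‖ ∧ ‖x‖ < 2}) :
    IsOpen D ∧ IsConnected D ∧ Bornology.IsBounded D ∧ AnalyticBoundary D ∧
      ContinuousOn (fun p : Cn n × Cn n => lempert D p.1 p.2) (D ×ˢ D) ∧
      ¬ Pseudoconvex D := by
  have hD' : D = Shell (Cn n) := hD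
  subst hD'
  refine ⟨isOpen_shell, shell_connected hn, ?_, shell_boundary, lempert_continuous hn,
    shell_not_pseudoconvex hn⟩
  exact (isBounded_ball (x := (0 : Cn n)) (r := 2)).subset fun x hx => by
    rw [mem_ball_zero_iff]; exact hx.2

end Pool.Agent.Results.MP_5a1ff8_an.LempertShell
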